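import Pool.Agent.Lib_helper12.HE.Defs

/-! Project HE (MP_b08f5f_an), block SH: shells and homogeneity. -/

set_option autoImplicit false

namespace Pool.Agent.Lib_helper12.HE

open MeasureTheory Filter Topology Set
open scoped ComplexConjugate ENNReal
open Pool.Agent.Lib_helper25.PV (Conf vel Motion centre inertia NC VFlow)

noncomputable section

theorem SH_centre_smul {N : ℕ} (hN : 1 ≤ N) (r w : ℂ) (z : Conf N) :
    centre (fun i => w + r * z i) = w + r * centre z := by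
  have hN' : (N : ℂ) ≠ 0 := by
    exact_mod_cast (by omega : N ≠ 0)
  unfold centre
  rw [Finset.sum_add_distrib, ← Finset.mul_sum]
  simp only [Finset.sum_const, Finset.card_univ, Fintype.card_fin, nsmul_eq_mul]
  field_simp

theorem SH_rad_smul {N : ℕ} (r : ℝ) (hr : 0 < r) (w : ℂ) (z : Conf N) :
    rad (fun i => w + (r : ℂ) * z i) = r * rad z := by
  rcases Nat.eq_zero_or_pos N with h0 | hN
  · subst h0
    simp [rad]
  · unfold rad
    rw [SH_centre_smul hN]
    have e : ∀ i : Fin N, ‖(fun i => w + (r : ℂ) * z i) i - (w + (r : ℂ) * centre z)‖ ^ 2 =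
        r ^ 2 * ‖z i - centre z‖ ^ 2 := by
      intro i
      have : (fun i => w + (r : ℂ) * z i) i - (w + (r : ℂ) * centre z) =
          (r : ℂ) * (z i - centre z) := by
        simp only
        ring
      rw [this, norm_mul, mul_pow, Complex.norm_real, Real.norm_of_nonneg hr.le]
    simp only [e]
    rw [← Finset.mul_sum, mul_div_assoc, Real.sqrt_mul (sq_nonneg r), Real.sqrt_sq hr.le]

theorem SH_nrm_smul {N : ℕ} (hN : 1 ≤ N) (r : ℝ) (hr : 0 < r) (w : ℂ) (z : Conf N) :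
    nrm (fun i => w + (r : ℂ) * z i) = nrm z := by
  funext i
  unfold nrm
  rw [SH_rad_smul r hr, SH_centre_smul hN]
  have hr' : (r : ℂ) ≠ 0 := by exact_mod_cast hr.ne'
  push_cast
  rw [mul_inv]
  have : w + (r : ℂ) * z i - (w + (r : ℂ) * centre z) = (r : ℂ) * (z i - centre z) := by ring
  rw [this]
  field_simp

theorem SH_continuous_centre {N : ℕ} : Continuous (centre (N := N)) := by
  unfold centre
  fun_prop

theorem SH_continuous_rad {N : ℕ} : Continuous (rad (N := N)) := by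
  unfold rad
  have := SH_continuous_centre (N := N)
  fun_prop

/-- dilation about the centre -/
def SH_L (N : ℕ) (R : ℝ) : Conf N →ₗ[ℝ] Conf N where
  toFun z := fun i => (centre z - (R : ℂ) * centre z) + (R : ℂ) * z i
  map_add' x y := by
    have : centre (x + y) = centre x + centre y := by
      simp only [centre, Pi.add_apply, Finset.sum_add_distrib, add_div]
    funext i
    simp only [this, Pi.add_apply]
    ring
  map_smul' a x := by
    have : centre (a • x) = (a : ℂ) * centre x := by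
      simp only [centre, Pi.smul_apply, Complex.real_smul]
      rw [← Finset.mul_sum, mul_div_assoc]
    funext i
    simp only [this, Pi.smul_apply, Complex.real_smul, RingHom.id_apply]
    ring

theorem SH_L_apply {N : ℕ} (R : ℝ) (z : Conf N) :
    SH_L N R z = fun i => (centre z - (R : ℂ) * centre z) + (R : ℂ) * z i := rfl

theorem SH_L_centre {N : ℕ} (hN : 1 ≤ N) (R : ℝ) (z : Conf N) : centre (SH_L N R z) = centre z := by
  rw [SH_L_apply, SH_centre_smul hN]
  ring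

theorem SH_L_rad {N : ℕ} (R : ℝ) (hR : 0 < R) (z : Conf N) : rad (SH_L N R z) = R * rad z := by
  rw [SH_L_apply, SH_rad_smul R hR]

theorem SH_L_nrm {N : ℕ} (hN : 1 ≤ N) (R : ℝ) (hR : 0 < R) (z : Conf N) :
    nrm (SH_L N R z) = nrm z := by
  rw [SH_L_apply, SH_nrm_smul hN R hR]

theorem SH_L_comp {N : ℕ} (hN : 1 ≤ N) (R S : ℝ) (h : R * S = 1) (z : Conf N) :
    SH_L N R (SH_L N S z) = z := by
  have hc := SH_L_centre hN S z
  rw [SH_L_apply R, hc, SH_L_apply]
  funext i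
  have h' : (R : ℂ) * (S : ℂ) = 1 := by exact_mod_cast h
  linear_combination (-(centre z) + z i) * h'

/-- the solid piece of the cone -/
def SH_S (N : ℕ) (B : Set (Conf N)) (R : ℝ) : Set (Conf N) :=
  {z | ‖centre z‖ ≤ 1 ∧ rad z < R ∧ nrm z ∈ B}

theorem SH_S_image {N : ℕ} (hN : 1 ≤ N) (B : Set (Conf N)) (R : ℝ) (hR : 0 < R) :
    SH_S N B R = SH_L N R '' SH_S N B 1 := by
  have hR' : 0 < R⁻¹ := inv_pos.2 hR
  ext z
  constructor
  · rintro ⟨h1, h2, h3⟩
    refine ⟨SH_L N R⁻¹ z, ⟨?_, ?_, ?_⟩, SH_L_comp hN _ _ (mul_inv_cancel₀ hR.ne') z⟩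
    · rw [SH_L_centre hN]
      exact h1
    · rw [SH_L_rad _ hR', inv_mul_lt_iff₀ hR, mul_one]
      exact h2
    · rw [SH_L_nrm hN _ hR']
      exact h3
  · rintro ⟨y, ⟨h1, h2, h3⟩, rfl⟩
    refine ⟨?_, ?_, ?_⟩
    · rw [SH_L_centre hN]
      exact h1
    · rw [SH_L_rad _ hR]
      calc R * rad y < R * 1 := mul_lt_mul_of_pos_left h2 hR
        _ = R := mul_one R
    · rw [SH_L_nrm hN _ hR]
      exact h3

/-- the factor of the volume -/
def SH_D (N : ℕ) (R : ℝ) : ℝ≥0∞ := ENNReal.ofReal |LinearMap.det (SH_L N R)|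

theorem SH_vol {N : ℕ} (hN : 1 ≤ N) (B : Set (Conf N)) (R : ℝ) (hR : 0 < R) :
    volume (SH_S N B R) = SH_D N R * volume (SH_S N B 1) := by
  rw [SH_S_image hN B R hR, Measure.addHaar_image_linearMap]
  rfl

theorem SH_bound {N : ℕ} (hN : 1 ≤ N) {R : ℝ} {z : Conf N} (h1 : ‖centre z‖ ≤ 1)
    (h2 : rad z < R) (i : Fin N) : ‖z i‖ ≤ 1 + Real.sqrt N * R := by
  have hN' : (0 : ℝ) < N := by exact_mod_cast hN
  have h3 : ‖z i - centre z‖ ^ 2 ≤ ∑ j, ‖z j - centre z‖ ^ 2 :=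
    Finset.single_le_sum (f := fun j => ‖z j - centre z‖ ^ 2) (fun j _ => sq_nonneg _)
      (Finset.mem_univ i)
  have h4 : ‖z i - centre z‖ ≤ Real.sqrt N * rad z := by
    unfold rad
    rw [← Real.sqrt_mul hN'.le, mul_div_cancel₀ _ hN'.ne']
    exact Real.le_sqrt_of_sq_le h3
  have h5 : Real.sqrt N * rad z ≤ Real.sqrt N * R :=
    mul_le_mul_of_nonneg_left h2.le (Real.sqrt_nonneg _)
  calc ‖z i‖ = ‖centre z + (z i - centre z)‖ := by rw [add_sub_cancel]
    _ ≤ ‖centre z‖ + ‖z i - centre z‖ := norm_add_le _ _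
    _ ≤ 1 + Real.sqrt N * R := by linarith

theorem SH_bounded {N : ℕ} (hN : 1 ≤ N) (R : ℝ) :
    Bornology.IsBounded {z : Conf N | ‖centre z‖ ≤ 1 ∧ rad z < R} := by
  rw [isBounded_iff_forall_norm_le]
  refine ⟨max 0 (1 + Real.sqrt N * R), ?_⟩
  rintro z ⟨h1, h2⟩
  rw [pi_norm_le_iff_of_nonneg (le_max_left _ _)]
  intro i
  exact (SH_bound hN h1 h2 i).trans (le_max_right _ _)

theorem SH_S_lt_top {N : ℕ} (hN : 1 ≤ N) (B : Set (Conf N)) (R : ℝ) :
    volume (SH_S N B R) < ⊤ := by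
  refine lt_of_le_of_lt (measure_mono ?_) (SH_bounded hN R).measure_lt_top
  rintro z ⟨h1, h2, _⟩
  exact ⟨h1, h2⟩

theorem SH_finite (N : ℕ) (hN : 2 ≤ N) (ε : ℝ) : volume (shell N ε) < ⊤ := by
  refine lt_of_le_of_lt (measure_mono ?_) (SH_bounded (by omega) (1 + ε)).measure_lt_top
  rintro z ⟨h1, _, h3⟩
  exact ⟨h1, h3⟩

/-- the volume of the solid piece splits -/
theorem SH_split {N : ℕ} (hN : 1 ≤ N) (B : Set (Conf N)) (ε : ℝ) (hε : 0 < ε) :
    SH_D N (1 + ε) * volume (SH_S N B 1) =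
      volume (SH_S N B 1) + volume {z | z ∈ shell N ε ∧ nrm z ∈ B} := by
  rw [← SH_vol hN B (1 + ε) (by linarith)]
  have hm : MeasurableSet {z : Conf N | rad z < 1} :=
    (isOpen_lt SH_continuous_rad continuous_const).measurableSet
  rw [← measure_inter_add_sdiff (SH_S N B (1 + ε)) hm]
  congr 2
  · ext z
    constructor
    · rintro ⟨⟨h1, _, h3⟩, h4⟩
      exact ⟨h1, h4, h3⟩
    · rintro ⟨h1, h2, h3⟩
      exact ⟨⟨h1, by linarith, h3⟩, h2⟩
  · ext z
    constructor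
    · rintro ⟨⟨h1, h2, h3⟩, h4⟩
      have h4' : 1 ≤ rad z := not_lt.1 h4
      exact ⟨⟨h1, h4', h2⟩, h3⟩
    · rintro ⟨⟨h1, h2, h3⟩, h4⟩
      exact ⟨⟨h1, h3, h4⟩, not_lt.2 h2⟩

theorem SH_shell_pos {N : ℕ} (hN : 2 ≤ N) (ε : ℝ) (hε : 0 < ε) :
    volume {z | z ∈ shell N ε ∧ nrm z ∈ (univ : Set (Conf N))} ≠ 0 := by
  have hN1 : 1 ≤ N := by omega
  have ho : IsOpen {z : Conf N | ‖centre z‖ < 1 ∧ 1 < rad z ∧ rad z < 1 + ε} := by
    refine (isOpen_lt SH_continuous_centre.norm continuous_const).inter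
      ((isOpen_lt continuous_const SH_continuous_rad).inter
        (isOpen_lt SH_continuous_rad continuous_const))
  have hne : {z : Conf N | ‖centre z‖ < 1 ∧ 1 < rad z ∧ rad z < 1 + ε}.Nonempty := by
    -- a configuration of positive radius
    obtain ⟨y, hy⟩ : ∃ y : Conf N, 0 < rad y := by
      refine ⟨fun i => if i = ⟨0, by omega⟩ then 1 else 0, ?_⟩
      unfold rad
      refine Real.sqrt_pos.2 (div_pos ?_ (by exact_mod_cast (by omega : 0 < N)))
      refine Finset.sum_pos' (fun i _ => sq_nonneg _) ?_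
      by_contra hcon
      push Not at hcon
      set c := centre (fun i : Fin N => if i = ⟨0, by omega⟩ then (1 : ℂ) else 0) with hc
      have h0 := hcon ⟨0, by omega⟩ (Finset.mem_univ _)
      have h1 := hcon ⟨1, by omega⟩ (Finset.mem_univ _)
      simp only [if_true] at h0
      rw [if_neg (by simp)] at h1
      have h0' : (1 : ℂ) - c = 0 := by
        have : ‖(1 : ℂ) - c‖ ^ 2 = 0 := le_antisymm h0 (sq_nonneg _)
        simpa using this
      have h1' : (0 : ℂ) - c = 0 := by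
        have : ‖(0 : ℂ) - c‖ ^ 2 = 0 := le_antisymm h1 (sq_nonneg _)
        simpa using this
      have : (1 : ℂ) = 0 := by linear_combination h0' - h1'
      exact one_ne_zero this
    set t : ℝ := (1 + ε / 2) / rad y with ht
    have htp : 0 < t := by positivity
    refine ⟨fun i => (-((t : ℂ) * centre y)) + (t : ℂ) * y i, ?_, ?_, ?_⟩
    · rw [SH_centre_smul hN1]
      simp
    · rw [SH_rad_smul t htp, ht, div_mul_cancel₀ _ hy.ne']
      linarith
    · rw [SH_rad_smul t htp, ht, div_mul_cancel₀ _ hy.ne']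
      linarith
  have hpos := ho.measure_pos volume hne
  refine (lt_of_lt_of_le hpos (measure_mono ?_)).ne'
  rintro z ⟨h1, h2, h3⟩
  exact ⟨⟨h1.le, h2.le, h3⟩, mem_univ _⟩

theorem SH_one_lt_D {N : ℕ} (hN : 2 ≤ N) (ε : ℝ) (hε : 0 < ε) : 1 < SH_D N (1 + ε) := by
  by_contra hcon
  rw [not_lt] at hcon
  have h1 := SH_split (by omega) (univ : Set (Conf N)) ε hε
  have h2 : SH_D N (1 + ε) * volume (SH_S N univ 1) ≤ volume (SH_S N univ 1) := by
    calc _ ≤ 1 * volume (SH_S N univ 1) := by gcongr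
      _ = _ := one_mul _
  rw [h1] at h2
  have hfin := (SH_S_lt_top (by omega : 1 ≤ N) (univ : Set (Conf N)) 1).ne
  have h3 : volume {z | z ∈ shell N ε ∧ nrm z ∈ (univ : Set (Conf N))} ≤ 0 := by
    have : volume (SH_S N univ 1) + volume {z | z ∈ shell N ε ∧ nrm z ∈ (univ : Set (Conf N))} ≤
        volume (SH_S N univ 1) + 0 := by
      rw [add_zero]
      exact h2
    exact (ENNReal.add_le_add_iff_left hfin).1 this
  exact SH_shell_pos hN ε hε (le_antisymm h3 zero_le)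

theorem SH_shell_eq {N : ℕ} (hN : 2 ≤ N) (ε : ℝ) (hε : 0 < ε) (B : Set (Conf N)) :
    volume {z | z ∈ shell N ε ∧ nrm z ∈ B} =
      (SH_D N (1 + ε) - 1) * volume (SH_S N B 1) := by
  have h1 := SH_split (by omega : 1 ≤ N) B ε hε
  have hfin := (SH_S_lt_top (by omega : 1 ≤ N) B 1).ne
  rw [ENNReal.sub_mul (fun _ _ => hfin), one_mul, h1]
  exact (ENNReal.add_sub_cancel_left hfin).symm

theorem SH_shell (N : ℕ) (hN : 2 ≤ N) (ε : ℝ) (hε : 0 < ε) : ∃ κ : ℝ≥0∞, κ ≠ 0 ∧ κ ≠ ⊤ ∧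
    ∀ B : Set (Conf N), volume {z | z ∈ shell N ε ∧ nrm z ∈ B} = κ * sig N B := by
  have hD1 : SH_D N (1 + ε) - 1 ≠ 0 := (tsub_pos_of_lt (SH_one_lt_D hN ε hε)).ne'
  have hD1' : SH_D N (1 + ε) - 1 ≠ ⊤ := by
    refine (lt_of_le_of_lt tsub_le_self ?_).ne
    exact ENNReal.ofReal_lt_top
  have hD2 : SH_D N (1 + 1) - 1 ≠ 0 := (tsub_pos_of_lt (SH_one_lt_D hN 1 one_pos)).ne'
  have hD2' : SH_D N (1 + 1) - 1 ≠ ⊤ := by
    refine (lt_of_le_of_lt tsub_le_self ?_).ne
    exact ENNReal.ofReal_lt_top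
  refine ⟨(SH_D N (1 + ε) - 1) / (SH_D N (1 + 1) - 1), ?_, ?_, ?_⟩
  · exact ENNReal.div_ne_zero.2 ⟨hD1, hD2'⟩
  · exact ENNReal.div_ne_top hD1' hD2
  · intro B
    rw [SH_shell_eq hN ε hε B]
    unfold sig
    rw [SH_shell_eq hN 1 one_pos B, ← mul_assoc, ENNReal.div_mul_cancel hD2 hD2']

end

end Pool.Agent.Lib_helper12.HE
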